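import Pool.Agent.Helper45.LGB.St

set_option autoImplicit false

/-!
Project LGB, module CHA: connected words of large diameter have packings.
-/

namespace Pool.Agent.Helper43.LGB

open Pool.Agent.Helper45.LGB

/-- part (1): a letter of `d` at distance exactly `t + 1` -/
private theorem step {ι : Type} {E : ι → ι → Prop} (hr : ∀ n a, nr E n a a) {s : ι} {d : List ι}
    (hd : Cn E s d) (t : ℕ) : ∀ (k : ℕ) (d₁ : List ι) (y : ι) (d₂ : List ι), d₁.length = k →
    d = d₁ ++ y :: d₂ → ¬ nr E t s y → ∃ z ∈ d, nr E (t + 1) s z ∧ ¬ nr E t s z := by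
  intro k
  induction k using Nat.strong_induction_on with
  | _ k ih =>
    intro d₁ y d₂ hk he hy
    obtain ⟨a, ha, hay⟩ := hd d₁ y d₂ he
    by_cases h : nr E t s a
    · refine ⟨y, ?_, ⟨a, h, Or.inr hay⟩, hy⟩
      rw [he]
      exact List.mem_append_right _ List.mem_cons_self
    · rcases ha with rfl | ha
      · exact absurd (hr t a) h
      · obtain ⟨e₁, e₂, he'⟩ := List.append_of_mem ha
        refine ih e₁.length ?_ e₁ a (e₂ ++ y :: d₂) rfl ?_ h
        · rw [← hk, he']
          simp only [List.length_append, List.length_cons]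
          omega
        · rw [he, he']
          simp only [List.append_assoc, List.cons_append]

theorem hCHA (hNRT : StNRT) : StCHA := by
  classical
  intro ι E hS s d hd y hy r n hn
  obtain ⟨hr, hm, htr, hsy, -⟩ := hNRT ι E
  obtain ⟨d₁, d₂, hdy⟩ := List.append_of_mem hy
  have key : ∀ j : ℕ, ∃ z, j < n → z ∈ d ∧ nr E ((r + 1) * j + r + 1) s z ∧ ¬ nr E ((r + 1) * j + r) s z := by
    intro j
    by_cases hj : j < n
    · have h1 : ¬ nr E ((r + 1) * j + r) s y := by
        intro h
        refine hn (hm _ _ _ _ ?_ h)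
        have h2 : (r + 1) * (j + 1) ≤ (r + 1) * n := Nat.mul_le_mul_left _ hj
        have h3 : (r + 1) * (j + 1) = (r + 1) * j + r + 1 := by ring
        omega
      obtain ⟨z, hz, hz1, hz2⟩ := step hr hd _ _ d₁ y d₂ rfl hdy h1
      exact ⟨z, fun _ => ⟨hz, hz1, hz2⟩⟩
    · exact ⟨s, fun h => absurd h hj⟩
  choose z hz using key
  have far : ∀ j j' : ℕ, j < j' → j' < n → ¬ nr E r (z j) (z j') := by
    intro j j' hjj hj' h
    obtain ⟨-, h1, -⟩ := hz j (hjj.trans hj')
    obtain ⟨-, -, h2⟩ := hz j' hj'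
    refine h2 (hm _ _ _ _ ?_ (htr _ _ _ _ _ h1 h))
    have h3 : (r + 1) * (j + 1) ≤ (r + 1) * j' := Nat.mul_le_mul_left _ hjj
    have h4 : (r + 1) * (j + 1) = (r + 1) * j + r + 1 := by ring
    omega
  have far' : ∀ j j' : ℕ, j < n → j' < n → j ≠ j' → ¬ nr E r (z j) (z j') := by
    intro j j' hj hj' hne
    rcases lt_or_gt_of_ne hne with h | h
    · exact far j j' h hj'
    · exact fun h' => far j' j h hj (hsy hS _ _ _ h')
  have inj : ∀ j j' : ℕ, j < n → j' < n → z j = z j' → j = j' := by
    intro j j' hj hj' he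
    by_contra hne
    exact far' j j' hj hj' hne (he ▸ hr r (z j))
  refine ⟨(Finset.range n).image z, ?_, ?_, ?_⟩
  · rw [Finset.card_image_of_injOn, Finset.card_range]
    intro j hj j' hj' he
    exact inj j j' (Finset.mem_range.1 hj) (Finset.mem_range.1 hj') he
  · intro a ha
    obtain ⟨j, hj, rfl⟩ := Finset.mem_image.1 ha
    exact (hz j (Finset.mem_range.1 hj)).1
  · intro a ha b hb hab
    obtain ⟨j, hj, rfl⟩ := Finset.mem_image.1 ha
    obtain ⟨j', hj', rfl⟩ := Finset.mem_image.1 hb
    exact far' j j' (Finset.mem_range.1 hj) (Finset.mem_range.1 hj') fun h => hab (by rw [h])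

end Pool.Agent.Helper43.LGB
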