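import Pool.Agent.Helper45.LGB.St2

set_option autoImplicit false

/-!
Project LGB, module FNL: the theorem for nilpotent groups.
-/

namespace Pool.Agent.Helper43.LGB

open Pool.Agent.Helper45.LGB Pool.Agent.Helper83.RB

open scoped commutatorElement

/-- iterated commutators are in the lower central series -/
private theorem ic_mem {G : Type} [Group G] (H : Subgroup G) : ∀ (l : List G) (v : G) (k : ℕ),
    (∀ g ∈ l, g ∈ H) → v ∈ H.lowerCentralSeries k → ic v l ∈ H.lowerCentralSeries (k + l.length)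
  | [], v, k, _, hv => by
    unfold ic
    rw [List.foldl_nil, List.length_nil, Nat.add_zero]
    exact hv
  | g :: l, v, k, hl, hv => by
    have h1 : ⁅v, g⁆ ∈ H.lowerCentralSeries (k + 1) := by
      rw [Subgroup.lowerCentralSeries_succ]
      exact Subgroup.commutator_mem_commutator hv (hl g List.mem_cons_self)
    have h2 := ic_mem H l ⁅v, g⁆ (k + 1) (fun g' hg' => hl g' (List.mem_cons_of_mem _ hg')) h1
    have h3 : ic v (g :: l) = ic ⁅v, g⁆ l := rfl
    have h4 : k + (g :: l).length = k + 1 + l.length := by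
      rw [List.length_cons]
      omega
    rw [h3, h4]
    exact h2

/-- the coercion of a list -/
private theorem coe_list {G : Type} {X : Set G} (u : List ↥X) :
    (u.map fun y => (y : G)) = List.map Subtype.val u := by
  rw [List.map_id']
  simp only [bind_pure_comp, List.map_eq_map]

theorem hFNL (hLIE : StLIE) (hGRN : StGRN) (hTOP : StTOP) (hGCN : StGCN) (hBAL : StBAL) : StFNL := by
  classical
  intro p hp
  obtain ⟨r, q, hP⟩ := hLIE p (p - 1) (Nat.sub_lt hp.out.pos one_pos)
  refine ⟨(r + 1) * (q + 1), ?_⟩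
  intro G _ hG X hX hN c hc
  by_contra hcon
  obtain ⟨n, hn1, hn0, hcn⟩ : ∃ n, (⊤ : Subgroup G).lowerCentralSeries (n + 1) = ⊥ ∧
      (⊤ : Subgroup G).lowerCentralSeries n ≠ ⊥ ∧ c ≤ n := by
    have hN1 := Nat.find_spec hN
    have hcN : c < Nat.find hN := by
      by_contra h
      have h1 := Subgroup.lowerCentralSeries_antitone (⊤ : Subgroup G) (not_lt.1 h)
      rw [hN1] at h1
      exact hcon (le_bot_iff.1 h1)
    have he : Nat.find hN - 1 + 1 = Nat.find hN := by omega
    exact ⟨Nat.find hN - 1, by rw [he]; exact hN1, Nat.find_min hN (by omega), by omega⟩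
  obtain ⟨x, u, hu, hxu⟩ := hTOP G X n hX hn1 hn0
  obtain ⟨V, i1, i2, f, e, hC, hNil, hact⟩ := hGRN p G hG X
  have hx0 : act f u (e x) ≠ 0 := by
    intro h
    have h1 := hact x u h
    rw [hu, hn1] at h1
    exact hxu (Subgroup.mem_bot.1 h1)
  have hctx : Ctx (NC X) f (p - 1) Set.univ ⊤ ⊥ := by
    refine ⟨fun a b h h' => h h'.symm, hC, bot_le, fun _ _ _ _ => trivial, ?_, hNil⟩
    intro y _ w hw
    rw [Submodule.mem_bot] at hw ⊢
    rw [hw, map_zero]
  have hPk : ¬ Pk (NC X) r (q + 1) (ltr u) := fun h =>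
    hx0 ((Submodule.mem_bot _).1 (hP ↥X (NC X) V f Set.univ ⊤ ⊥ hctx u (fun _ _ => trivial) h (e x) trivial))
  have hball : ∀ y ∈ u, (y : G) ∈ Ball X (x : G) ((r + 1) * (q + 1)) := fun y hy =>
    (hBAL G X).1 _ x y (by_contra fun h => hPk (hGCN G X x u hxu y hy r (q + 1) h))
  rw [coe_list] at hxu
  have hmem := ic_mem (Subgroup.closure (Ball X (x : G) ((r + 1) * (q + 1)))) (List.map Subtype.val u) (x : G) 0
    (by
      intro g hg
      obtain ⟨y, hy, rfl⟩ := List.mem_map.1 hg
      exact Subgroup.subset_closure (hball y hy))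
    (Subgroup.subset_closure ((hBAL G X).2.2.1 _ (x : G)))
  rw [Nat.zero_add, List.length_map, hu] at hmem
  have h2 := Subgroup.lowerCentralSeries_antitone (Subgroup.closure (Ball X (x : G) ((r + 1) * (q + 1)))) hcn hmem
  rw [hc (x : G) x.2] at h2
  exact hxu (Subgroup.mem_bot.1 h2)

end Pool.Agent.Helper43.LGB
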